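import Pool.Agent.Q204.NA.Spec

/-!
Almost periodicity of `cz`.
-/

set_option autoImplicit false

namespace Pool.Agent.Q19.NA

open Filter Topology

section Abstract

variable {ι : Type*} (w γ : ι → ℝ)

/-- the almost periodic sum -/
noncomputable def ap (t : ℝ) : ℝ := ∑' i, w i * Real.cos (γ i * t)

variable {w γ}

lemma ap_summable (hw0 : ∀ i, 0 ≤ w i) (hw : Summable w) (t : ℝ) :
    Summable fun i => w i * Real.cos (γ i * t) := by
  refine Summable.of_norm_bounded hw fun i => ?_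
  rw [norm_mul, Real.norm_eq_abs, Real.norm_eq_abs, abs_of_nonneg (hw0 i)]
  exact mul_le_of_le_one_right (hw0 i) (Real.abs_cos_le_one _)

lemma ap_zero : ap w γ 0 = ∑' i, w i := by
  unfold ap
  simp

lemma ap_abs_le (hw0 : ∀ i, 0 ≤ w i) (hw : Summable w) (t : ℝ) : |ap w γ t| ≤ ap w γ 0 := by
  rw [ap_zero]
  unfold ap
  rw [← Real.norm_eq_abs]
  refine tsum_of_norm_bounded hw.hasSum fun i => ?_
  rw [norm_mul, Real.norm_eq_abs, Real.norm_eq_abs, abs_of_nonneg (hw0 i)]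
  exact mul_le_of_le_one_right (hw0 i) (Real.abs_cos_le_one _)

lemma ap_diff (hw0 : ∀ i, 0 ≤ w i) (hw : Summable w) (F : Finset ι) (s t : ℝ) :
    |ap w γ s - ap w γ t| ≤ ∑ i ∈ F, w i * |Real.cos (γ i * s) - Real.cos (γ i * t)| +
      2 * (∑' i, w i - ∑ i ∈ F, w i) := by
  have hd : Summable fun i => w i * |Real.cos (γ i * s) - Real.cos (γ i * t)| := by
    refine Summable.of_nonneg_of_le (fun i => mul_nonneg (hw0 i) (abs_nonneg _)) (fun i => ?_)
      (hw.mul_left 2)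
    rw [mul_comm 2]
    apply mul_le_mul_of_nonneg_left _ (hw0 i)
    have h1 := Real.abs_cos_le_one (γ i * s)
    have h2 := Real.abs_cos_le_one (γ i * t)
    have := abs_sub (Real.cos (γ i * s)) (Real.cos (γ i * t))
    linarith
  have h1 : |ap w γ s - ap w γ t| ≤ ∑' i, w i * |Real.cos (γ i * s) - Real.cos (γ i * t)| := by
    unfold ap
    rw [← (ap_summable hw0 hw s).tsum_sub (ap_summable hw0 hw t), ← Real.norm_eq_abs]
    refine tsum_of_norm_bounded hd.hasSum fun i => ?_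
    rw [← mul_sub, norm_mul, Real.norm_eq_abs, Real.norm_eq_abs, abs_of_nonneg (hw0 i)]
  refine h1.trans ?_
  have h2 := hd.sum_add_tsum_compl (s := F)
  have h3 := hw.sum_add_tsum_compl (s := F)
  have h4 : ∑' x : ↑((F : Set ι)ᶜ), w x * |Real.cos (γ x * s) - Real.cos (γ x * t)| ≤
      ∑' x : ↑((F : Set ι)ᶜ), 2 * w x := by
    refine Summable.tsum_le_tsum (fun i => ?_) (hd.subtype _) ((hw.mul_left 2).subtype _)
    rw [mul_comm 2]
    apply mul_le_mul_of_nonneg_left _ (hw0 i)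
    have h1 := Real.abs_cos_le_one (γ i * s)
    have h2 := Real.abs_cos_le_one (γ i * t)
    have := abs_sub (Real.cos (γ i * s)) (Real.cos (γ i * t))
    linarith
  rw [tsum_mul_left] at h4
  linarith

lemma exists_F (hw : Summable w) {η : ℝ} (hη : 0 < η) :
    ∃ F : Finset ι, ∑' i, w i - ∑ i ∈ F, w i < η := by
  have h := hw.hasSum
  have h2 := h.eventually (lt_mem_nhds (show ∑' i, w i - η < ∑' i, w i by linarith))
  obtain ⟨F, hF⟩ := h2.exists
  exact ⟨F, by linarith⟩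

lemma ap_uc (hw0 : ∀ i, 0 ≤ w i) (hw : Summable w) : UniformContinuous (ap w γ) := by
  rw [Metric.uniformContinuous_iff]
  intro ε hε
  obtain ⟨F, hF⟩ := exists_F hw (show 0 < ε / 4 by linarith)
  set M := ∑ i ∈ F, w i * |γ i| with hM
  have hM0 : 0 ≤ M := Finset.sum_nonneg fun i _ => mul_nonneg (hw0 i) (abs_nonneg _)
  refine ⟨ε / (2 * (M + 1)), by positivity, fun {s t} hst => ?_⟩
  rw [Real.dist_eq] at hst ⊢
  refine (ap_diff hw0 hw F s t).trans_lt ?_
  have h1 : ∑ i ∈ F, w i * |Real.cos (γ i * s) - Real.cos (γ i * t)| ≤ M * |s - t| := by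
    rw [hM, Finset.sum_mul]
    refine Finset.sum_le_sum fun i _ => ?_
    rw [mul_assoc]
    apply mul_le_mul_of_nonneg_left _ (hw0 i)
    have h2 : |Real.cos (γ i * s) - Real.cos (γ i * t)| ≤ |γ i * s - γ i * t| := by
      have := Real.lipschitzWith_cos.dist_le_mul (γ i * s) (γ i * t)
      simpa [Real.dist_eq] using this
    rw [← mul_sub, abs_mul] at h2
    exact h2
  have h3 : M * |s - t| ≤ ε / 2 := by
    have : M * |s - t| ≤ (M + 1) * (ε / (2 * (M + 1))) :=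
      mul_le_mul (by linarith) hst.le (abs_nonneg _) (by linarith)
    refine this.trans (le_of_eq ?_)
    field_simp
  linarith

lemma cos_pair (a b : ℝ) : 1 - Real.cos (a - b) =
    ((Real.cos a - Real.cos b) ^ 2 + (Real.sin a - Real.sin b) ^ 2) / 2 := by
  rw [Real.cos_sub]
  have h1 := Real.sin_sq_add_cos_sq a
  have h2 := Real.sin_sq_add_cos_sq b
  nlinarith

/-- simultaneous returns -/
lemma exists_return (F : Finset ι) {η : ℝ} (hη : 0 < η) (T : ℝ) :
    ∃ t : ℝ, T ≤ t ∧ ∀ i ∈ F, 1 - Real.cos (γ i * t) ≤ η := by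
  set M : ℝ := max T 1 with hM
  have hM1 : 1 ≤ M := le_max_right _ _
  let u : ℕ → (F → ℝ × ℝ) := fun n i =>
    (Real.cos (γ i * (n * M)), Real.sin (γ i * (n * M)))
  have hb : ∀ n, u n ∈ Metric.closedBall (0 : F → ℝ × ℝ) 1 := by
    intro n
    rw [mem_closedBall_zero_iff, pi_norm_le_iff_of_nonneg zero_le_one]
    intro i
    rw [Prod.norm_def, Real.norm_eq_abs, Real.norm_eq_abs]
    exact max_le (Real.abs_cos_le_one _) (Real.abs_sin_le_one _)
  obtain ⟨a, _, φ, hφ, hlim⟩ := (isCompact_closedBall (0 : F → ℝ × ℝ) 1).tendsto_subseq hb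
  have hc := hlim.cauchySeq
  rw [Metric.cauchySeq_iff] at hc
  obtain ⟨N, hN⟩ := hc (min η 1) (by positivity)
  have hd := hN (N + 1) (by omega) N le_rfl
  have hlt : φ N < φ (N + 1) := hφ (Nat.lt_succ_self N)
  refine ⟨((φ (N + 1) : ℝ) - φ N) * M, ?_, ?_⟩
  · have h1 : (1 : ℝ) ≤ (φ (N + 1) : ℝ) - φ N := by
      have : ((φ N + 1 : ℕ) : ℝ) ≤ φ (N + 1) := by exact_mod_cast hlt
      push_cast at this
      linarith
    have h2 : T ≤ M := le_max_left _ _
    nlinarith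
  · intro i hi
    have h1 := (dist_le_pi_dist (u (φ (N + 1))) (u (φ N)) ⟨i, hi⟩).trans_lt hd
    rw [Prod.dist_eq, max_lt_iff, Real.dist_eq, Real.dist_eq] at h1
    obtain ⟨h2, h3⟩ := h1
    have h4 : γ i * (((φ (N + 1) : ℝ) - φ N) * M) =
        γ i * (φ (N + 1) * M) - γ i * (φ N * M) := by ring
    rw [h4, cos_pair]
    have h5 : |Real.cos (γ i * (φ (N + 1) * M)) - Real.cos (γ i * (φ N * M))| < min η 1 := h2
    have h6 : |Real.sin (γ i * (φ (N + 1) * M)) - Real.sin (γ i * (φ N * M))| < min η 1 := h3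
    have h7 : ∀ x : ℝ, |x| < min η 1 → x ^ 2 ≤ η := by
      intro x hx
      have hx1 := hx.trans_le (min_le_left η 1)
      have hx2 := hx.trans_le (min_le_right η 1)
      rw [← sq_abs]
      nlinarith [abs_nonneg x]
    have h8 := h7 _ h5
    have h9 := h7 _ h6
    linarith

lemma ap_rec (hw0 : ∀ i, 0 ≤ w i) (hw : Summable w) (ε : ℝ) (hε : 0 < ε) (T : ℝ) :
    ∃ t : ℝ, T ≤ t ∧ ap w γ 0 - ε ≤ ap w γ t := by
  obtain ⟨F, hF⟩ := exists_F hw (show 0 < ε / 4 by linarith)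
  set M := ∑ i ∈ F, w i with hM
  have hM0 : 0 ≤ M := Finset.sum_nonneg fun i _ => hw0 i
  obtain ⟨t, ht, hr⟩ := exists_return (γ := γ) F (show 0 < ε / (2 * (M + 1)) by positivity) T
  refine ⟨t, ht, ?_⟩
  have h1 := ap_diff (γ := γ) hw0 hw F 0 t
  have h2 : ∑ i ∈ F, w i * |Real.cos (γ i * 0) - Real.cos (γ i * t)| ≤ ε / 2 := by
    have h3 : ∑ i ∈ F, w i * |Real.cos (γ i * 0) - Real.cos (γ i * t)| ≤
        ∑ i ∈ F, w i * (ε / (2 * (M + 1))) := by
      refine Finset.sum_le_sum fun i hi => ?_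
      apply mul_le_mul_of_nonneg_left _ (hw0 i)
      rw [mul_zero, Real.cos_zero, abs_of_nonneg (by linarith [Real.cos_le_one (γ i * t)])]
      exact hr i hi
    rw [← Finset.sum_mul, ← hM] at h3
    refine h3.trans ?_
    have : M * (ε / (2 * (M + 1))) ≤ (M + 1) * (ε / (2 * (M + 1))) :=
      mul_le_mul_of_nonneg_right (by linarith) (by positivity)
    refine this.trans (le_of_eq ?_)
    field_simp
  have h4 := (abs_le.1 h1).2
  linarith

end Abstract

open Pool.Agent.Y23 (Zt mu)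

lemma zt_summable : Summable fun ρ : Zt => (mu ρ : ℝ) / ‖(ρ : ℂ)‖ ^ 2 := by
  have h1 := (Pool.Agent.Y23.zsummable 0).mul_left 2
  have hfin : {ρ : Zt | |(ρ : ℂ).im| ≤ 1}.Finite := by
    have h := Pool.Agent.Y23.isZ_finite 1
    refine Set.Finite.of_finite_image (f := fun ρ : Zt => (ρ : ℂ)) (h.subset ?_)
      Subtype.val_injective.injOn
    rintro _ ⟨ρ, hρ, rfl⟩
    exact ⟨ρ.2, hρ⟩
  refine Summable.of_norm_bounded_eventually h1 ?_
  rw [Filter.eventually_cofinite]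
  refine hfin.subset fun ρ hρ => ?_
  simp only [Set.mem_ofPred_eq] at hρ ⊢
  by_contra hc
  apply hρ
  rw [not_le] at hc
  have h2 : 1 ≤ (ρ : ℂ).im ^ 2 := by
    rw [← sq_abs]
    nlinarith
  have h3 : (ρ : ℂ).im ^ 2 ≤ ‖(ρ : ℂ)‖ ^ 2 := by
    rw [← Complex.normSq_eq_norm_sq, Complex.normSq_apply]
    nlinarith [sq_nonneg (ρ : ℂ).re]
  rw [Real.norm_eq_abs, abs_of_nonneg (by positivity), sub_zero]
  have h4 : (mu ρ : ℝ) / ‖(ρ : ℂ)‖ ^ 2 ≤ (mu ρ : ℝ) * (2 * (1 / (1 + (ρ : ℂ).im ^ 2))) := by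
    rw [div_eq_mul_inv]
    apply mul_le_mul_of_nonneg_left _ (Nat.cast_nonneg _)
    rw [mul_one_div, inv_eq_one_div, div_le_div_iff₀ (by nlinarith) (by positivity)]
    nlinarith
  linarith

theorem almost : Q204.NA.SAlmost := by
  have hw0 : ∀ ρ : Zt, 0 ≤ (mu ρ : ℝ) / ‖(ρ : ℂ)‖ ^ 2 := fun ρ => by positivity
  have hw := zt_summable
  have e : Q204.NA.cz = fun t => 2 + ap (fun ρ : Zt => (mu ρ : ℝ) / ‖(ρ : ℂ)‖ ^ 2)
      (fun ρ : Zt => (ρ : ℂ).im) t := by
    funext t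
    unfold Q204.NA.cz ap
    congr 1
    refine tsum_congr fun ρ => ?_
    ring
  rw [Q204.NA.SAlmost, e]
  refine ⟨fun t => ?_, ?_, fun ε hε T => ?_⟩
  · simp only [add_sub_cancel_left]
    exact ap_abs_le hw0 hw t
  · exact (ap_uc hw0 hw).const_add 2
  · obtain ⟨t, ht, h⟩ := ap_rec (γ := fun ρ : Zt => (ρ : ℂ).im) hw0 hw ε hε T
    exact ⟨t, ht, by linarith⟩

end Pool.Agent.Q19.NA
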