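import Mathlib

/-!
An upper bound for `∑ log (1 + exp (-(b x_p)))` from a counting bound.
-/

namespace Pool.Agent.Q19.NA

open MeasureTheory Set Filter Topology

lemma hsc {f g : ℕ → ℝ} {a : ℝ} (h : ∀ n, f n = g n) : HasSum f a ↔ HasSum g a := by
  rw [show f = g from funext h]

/-- alternating zeta value at two -/
lemma hasSum_alt : HasSum (fun n : ℕ => (-1 : ℝ) ^ n * (1 / ((n : ℝ) + 1) ^ 2))
    (Real.pi ^ 2 / 12) := by
  have h0 := hasSum_zeta_two
  have he : HasSum (fun n : ℕ => if Even n then (1 : ℝ) / (n : ℝ) ^ 2 else 0)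
      (Real.pi ^ 2 / 24) := by
    have hinj : Function.Injective (fun m : ℕ => 2 * m) := fun a b h => by
      simpa using h
    rw [← hinj.hasSum_iff]
    · have h1 := h0.mul_left (1 / 4 : ℝ)
      rw [show Real.pi ^ 2 / 24 = 1 / 4 * (Real.pi ^ 2 / 6) by ring]
      refine (hsc fun m => ?_).2 h1
      have : Even (2 * m) := even_two_mul m
      simp only [Function.comp, this, if_true]
      push_cast
      rw [mul_pow]
      by_cases hm : (m : ℝ) = 0
      · simp [hm]
      · field_simp
        norm_num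
    · intro n hn
      have : ¬ Even n := by
        rintro ⟨m, rfl⟩
        exact hn ⟨m, by ring⟩
      simp [this]
  have h2 := h0.sub (he.mul_left 2)
  have h3 : HasSum (fun n : ℕ => (1 : ℝ) / (n : ℝ) ^ 2 - 2 * (if Even n then (1 : ℝ) / (n : ℝ) ^ 2
      else 0)) (Real.pi ^ 2 / 12) := by
    rw [show Real.pi ^ 2 / 12 = Real.pi ^ 2 / 6 - 2 * (Real.pi ^ 2 / 24) by ring]
    exact h2
  rw [← hasSum_nat_add_iff' 1] at h3
  simp only [Finset.range_one, Finset.sum_singleton] at h3
  have h4 : Real.pi ^ 2 / 12 - (1 / ((0 : ℕ) : ℝ) ^ 2 - 2 * if Even 0 then 1 / ((0 : ℕ) : ℝ) ^ 2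
      else 0) = Real.pi ^ 2 / 12 := by simp
  rw [h4] at h3
  refine (hsc fun n => ?_).2 h3
  push_cast
  rcases Nat.even_or_odd n with h | h
  · have : ¬ Even (n + 1) := by
      rw [Nat.even_add_one]
      simpa using h
    simp [this, h.neg_one_pow]
  · have : Even (n + 1) := h.add_one
    simp only [this, if_true, h.neg_one_pow]
    ring

variable {b : ℝ}

/-- the density -/
noncomputable def gg (b t : ℝ) : ℝ := b * Real.exp (-(b * t)) / (1 + Real.exp (-(b * t)))

lemma gg_nonneg (hb : 0 < b) (t : ℝ) : 0 ≤ gg b t := by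
  unfold gg
  positivity

lemma gg_cont : Continuous (gg b) := by
  unfold gg
  refine Continuous.div (by fun_prop) (by fun_prop) fun t => ?_
  positivity

lemma hasDeriv (t : ℝ) :
    HasDerivAt (fun t => -Real.log (1 + Real.exp (-(b * t)))) (gg b t) t := by
  have h1 : HasDerivAt (fun t : ℝ => -(b * t)) (-b) t := by
    have := ((hasDerivAt_id' t).const_mul b).neg
    rw [mul_one] at this
    exact this
  have h2 : HasDerivAt (fun t : ℝ => 1 + Real.exp (-(b * t))) (Real.exp (-(b * t)) * (-b)) t :=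
    (h1.exp).const_add 1
  have h3 := (h2.log (by positivity)).neg
  have h4 : gg b t = -(Real.exp (-(b * t)) * (-b) / (1 + Real.exp (-(b * t)))) := by
    unfold gg
    ring
  rw [h4]
  exact h3

lemma tends (hb : 0 < b) :
    Tendsto (fun t => -Real.log (1 + Real.exp (-(b * t)))) atTop (𝓝 0) := by
  have h1 : Tendsto (fun t : ℝ => Real.exp (-(b * t))) atTop (𝓝 0) := by
    apply Real.tendsto_exp_atBot.comp
    apply tendsto_neg_atTop_atBot.comp
    exact tendsto_id.const_mul_atTop hb
  have h2 : Tendsto (fun t : ℝ => -Real.log (1 + Real.exp (-(b * t)))) atTop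
      (𝓝 (-Real.log (1 + 0))) := by
    apply Tendsto.neg
    apply Tendsto.log (h1.const_add 1)
    norm_num
  simpa using h2

lemma gg_integrable (hb : 0 < b) (x : ℝ) : IntegrableOn (gg b) (Ioi x) :=
  integrableOn_Ioi_deriv_of_nonneg' (fun t _ => hasDeriv t) (fun t _ => gg_nonneg hb t) (tends hb)

lemma gg_integral (hb : 0 < b) (x : ℝ) :
    ∫ t in Ioi x, gg b t = Real.log (1 + Real.exp (-(b * x))) := by
  rw [integral_Ioi_of_hasDerivAt_of_tendsto' (fun t _ => hasDeriv t) (gg_integrable hb x)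
    (tends hb)]
  ring

/-- terms of the expansion of `t g(t)` -/
noncomputable def tm (b : ℝ) (n : ℕ) (t : ℝ) : ℝ :=
  (-1) ^ n * (b * (t * Real.exp (-((n + 1) * b * t))))

lemma tm_int0 (hb : 0 < b) (n : ℕ) :
    IntegrableOn (fun t => t * Real.exp (-((n + 1) * b * t))) (Ioi 0) ∧
    ∫ t in Ioi 0, t * Real.exp (-((n + 1) * b * t)) = 1 / ((n + 1) * b) ^ 2 := by
  have hr : 0 < ((n : ℝ) + 1) * b := by positivity
  have h1 := Real.integral_rpow_mul_exp_neg_mul_Ioi (a := 2) (by norm_num) hr
  have e : ∀ t : ℝ, t ^ ((2 : ℝ) - 1) = t := fun t => by norm_num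
  simp only [e] at h1
  have h2 : Real.Gamma 2 = 1 := by
    have := Real.Gamma_nat_eq_factorial 1
    rw [show ((1 : ℕ) : ℝ) + 1 = 2 by norm_num] at this
    rw [this]
    norm_num
  rw [h2, mul_one] at h1
  have h3 : ∫ t in Ioi 0, t * Real.exp (-((n + 1) * b * t)) = 1 / ((n + 1) * b) ^ 2 := by
    rw [h1]
    have : ((2 : ℝ)) = ((2 : ℕ) : ℝ) := by norm_num
    rw [this, Real.rpow_natCast, one_div, one_div, inv_pow]
  refine ⟨?_, h3⟩
  by_contra hn
  rw [integral_undef hn] at h3
  have : (0 : ℝ) < 1 / (((n : ℝ) + 1) * b) ^ 2 := by positivity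
  linarith

lemma tm_hasSum (hb : 0 < b) {t : ℝ} (ht : 0 < t) : HasSum (fun n => tm b n t) (t * gg b t) := by
  have hlt : |-(Real.exp (-(b * t)))| < 1 := by
    rw [abs_neg, abs_of_pos (Real.exp_pos _), Real.exp_lt_one_iff]
    have := mul_pos hb ht
    linarith
  have h1 := (hasSum_geometric_of_abs_lt_one hlt).mul_left (t * (b * Real.exp (-(b * t))))
  have h2 : t * gg b t = t * (b * Real.exp (-(b * t))) * (1 - -Real.exp (-(b * t)))⁻¹ := by
    unfold gg
    rw [sub_neg_eq_add, div_eq_mul_inv]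
    ring
  rw [h2]
  refine (hsc fun n => ?_).2 h1
  unfold tm
  have : Real.exp (-((n + 1) * b * t)) = Real.exp (-(b * t)) * Real.exp (-(b * t)) ^ n := by
    rw [← Real.exp_nat_mul, ← Real.exp_add]
    congr 1
    ring
  rw [this, neg_pow (Real.exp (-(b * t)))]
  ring

lemma tgg (hb : 0 < b) : IntegrableOn (fun t => t * gg b t) (Ioi 0) ∧
    ∫ t in Ioi 0, t * gg b t = Real.pi ^ 2 / 12 / b := by
  have hint : ∀ n : ℕ, Integrable (tm b n) (volume.restrict (Ioi 0)) := fun n =>
    (((tm_int0 hb n).1).const_mul b).const_mul _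
  have hval : ∀ n : ℕ, ∫ t in Ioi 0, tm b n t = (1 / b) * ((-1) ^ n * (1 / ((n : ℝ) + 1) ^ 2)) := by
    intro n
    unfold tm
    rw [integral_const_mul, integral_const_mul, (tm_int0 hb n).2]
    field_simp
  have hnorm : ∀ n : ℕ, ∫ t in Ioi 0, ‖tm b n t‖ = (1 / b) * (1 / ((n : ℝ) + 1) ^ 2) := by
    intro n
    have : ∫ t in Ioi 0, ‖tm b n t‖ = ∫ t in Ioi 0, b * (t * Real.exp (-((n + 1) * b * t))) := by
      refine setIntegral_congr_fun measurableSet_Ioi fun t ht => ?_
      have ht' : 0 < t := ht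
      unfold tm
      simp only [norm_mul, norm_pow, norm_neg, norm_one, one_pow, one_mul, Real.norm_eq_abs,
        abs_of_pos hb, abs_of_pos ht', Real.abs_exp]
    rw [this, integral_const_mul, (tm_int0 hb n).2]
    field_simp
  have hsum : Summable fun n : ℕ => ∫ t in Ioi 0, ‖tm b n t‖ := by
    simp only [hnorm]
    apply Summable.mul_left
    have := (summable_nat_add_iff 1).2 (Real.summable_one_div_nat_pow.2 (by norm_num : 1 < 2))
    simpa using this
  have h1 := hasSum_integral_of_summable_integral_norm hint hsum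
  have h2 : ∫ t in Ioi 0, ∑' n, tm b n t = ∫ t in Ioi 0, t * gg b t :=
    setIntegral_congr_fun measurableSet_Ioi fun t ht => (tm_hasSum hb ht).tsum_eq
  rw [h2] at h1
  simp only [hval] at h1
  have h3 := hasSum_alt.mul_left (1 / b)
  have h4 := h1.unique h3
  have h5 : ∫ t in Ioi 0, t * gg b t = Real.pi ^ 2 / 12 / b := by rw [h4]; ring
  refine ⟨?_, h5⟩
  by_contra hn
  rw [integral_undef hn] at h5
  have : (0 : ℝ) < Real.pi ^ 2 / 12 / b := by positivity
  linarith

theorem log_prod_le {ι : Type*} (P : Finset ι) (x : ι → ℝ) {a E b : ℝ} (ha : 0 ≤ a)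
    (hE : 0 ≤ E) (hb : 0 < b) (hx : ∀ p ∈ P, 0 ≤ x p)
    (hcount : ∀ t : ℝ, 0 ≤ t → ((P.filter fun p => x p ≤ t).card : ℝ) ≤ a * t + E) :
    ∑ p ∈ P, Real.log (1 + Real.exp (-(b * x p))) ≤
      a * (Real.pi ^ 2 / 12) / b + E * Real.log 2 := by
  have h1 : ∀ p ∈ P, Real.log (1 + Real.exp (-(b * x p))) =
      ∫ t in Ioi 0, (Ioi (x p)).indicator (gg b) t := by
    intro p hp
    rw [← gg_integral hb, integral_indicator measurableSet_Ioi, Measure.restrict_restrict
      measurableSet_Ioi, inter_eq_left.2 (Ioi_subset_Ioi (hx p hp))]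
  rw [Finset.sum_congr rfl h1, ← integral_finsetSum]
  · have h2 : a * (Real.pi ^ 2 / 12) / b + E * Real.log 2 =
        ∫ t in Ioi 0, (a * (t * gg b t) + E * gg b t) := by
      rw [integral_add ((tgg hb).1.const_mul a) ((gg_integrable hb 0).const_mul E),
        integral_const_mul, integral_const_mul, (tgg hb).2, gg_integral hb]
      have : (1 : ℝ) + Real.exp (-(b * 0)) = 2 := by norm_num
      rw [this]
      ring
    rw [h2]
    refine setIntegral_mono_on ?_ ?_ measurableSet_Ioi ?_
    · refine integrable_finsetSum _ fun p hp => ?_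
      exact (gg_integrable hb 0).indicator measurableSet_Ioi
    · exact ((tgg hb).1.const_mul a).add ((gg_integrable hb 0).const_mul E)
    · intro t ht
      have ht' : (0 : ℝ) < t := ht
      have h3 : ∑ p ∈ P, (Ioi (x p)).indicator (gg b) t ≤
          ((P.filter fun p => x p ≤ t).card : ℝ) * gg b t := by
        rw [Finset.card_filter]
        push_cast
        rw [Finset.sum_mul]
        refine Finset.sum_le_sum fun p _ => ?_
        by_cases h : x p < t
        · rw [indicator_of_mem (show t ∈ Ioi (x p) from h), if_pos h.le, one_mul]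
        · rw [indicator_of_notMem (show t ∉ Ioi (x p) from h)]
          have := gg_nonneg hb t
          split_ifs <;> simp [this]
      refine h3.trans ?_
      have h4 := mul_le_mul_of_nonneg_right (hcount t ht'.le) (gg_nonneg hb t)
      linarith
  · intro p hp
    exact (gg_integrable hb 0).indicator measurableSet_Ioi

end Pool.Agent.Q19.NA
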