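import Mathlib
import Pool.Agent.Q19.NA.Prod

/-!
Many sets of positive integers with small sum (Hardy–Ramanujan type lower bound for partitions
into distinct parts, by the product).
-/

namespace Pool.Agent.Q19.NA

open MeasureTheory Set Filter Topology

/-- the product as a sum over subsets -/
noncomputable def FF (K : ℕ) (b : ℝ) : ℝ :=
  ∑ S ∈ (Finset.Icc 1 K).powerset, Real.exp (-(b * ((∑ k ∈ S, k : ℕ) : ℝ)))

lemma FF_eq (K : ℕ) (b : ℝ) :
    FF K b = ∏ k ∈ Finset.Icc 1 K, (1 + Real.exp (-(b * (k : ℝ)))) := by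
  rw [Finset.prod_one_add]
  refine Finset.sum_congr rfl fun S _ => ?_
  rw [← Real.exp_sum]
  congr 1
  push_cast
  rw [Finset.mul_sum, Finset.sum_neg_distrib]

lemma FF_pos (K : ℕ) (b : ℝ) : 0 < FF K b := by
  rw [FF_eq]
  exact Finset.prod_pos fun k _ => by positivity

lemma log_FF (K : ℕ) (b : ℝ) :
    Real.log (FF K b) = ∑ k ∈ Finset.Icc 1 K, Real.log (1 + Real.exp (-(b * (k : ℝ)))) := by
  rw [FF_eq, Real.log_prod]
  intro k _
  positivity

lemma FF_le (K : ℕ) {b : ℝ} (hb : 0 < b) : FF K b ≤ Real.exp (Real.pi ^ 2 / 12 / b) := by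
  rw [← Real.log_le_iff_le_exp (FF_pos K b), log_FF]
  have h := log_prod_le (Finset.Icc 1 K) (fun k => (k : ℝ)) (a := 1) (E := 0) (b := b)
    zero_le_one le_rfl hb (fun p _ => Nat.cast_nonneg p) (by
      intro t ht
      have h1 : ((Finset.Icc 1 K).filter fun p : ℕ => (p : ℝ) ≤ t) ⊆ Finset.Icc 1 ⌊t⌋₊ := by
        intro p hp
        simp only [Finset.mem_filter, Finset.mem_Icc] at hp ⊢
        exact ⟨hp.1.1, Nat.le_floor hp.2⟩
      have h2 := Finset.card_le_card h1
      rw [Nat.card_Icc, Nat.add_sub_cancel] at h2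
      have h3 : (((Finset.Icc 1 K).filter fun p : ℕ => (p : ℝ) ≤ t).card : ℝ) ≤ (⌊t⌋₊ : ℝ) := by
        exact_mod_cast h2
      have h4 := Nat.floor_le ht
      linarith)
  simpa using h

lemma tail_le {b : ℝ} (hb : 0 < b) (K : ℕ) :
    ∫ t in Ioi (K : ℝ), (t - K) * (b * Real.exp (-(b * t))) = Real.exp (-(b * K)) / b ∧
    IntegrableOn (fun t : ℝ => (t - K) * (b * Real.exp (-(b * t)))) (Ioi (K : ℝ)) := by
  -- antiderivative
  have hd : ∀ t : ℝ, HasDerivAt (fun t : ℝ => -((t - K) + 1 / b) * Real.exp (-(b * t)))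
      ((t - K) * (b * Real.exp (-(b * t)))) t := by
    intro t
    have h1 : HasDerivAt (fun t : ℝ => -(b * t)) (-b) t := by
      have := ((hasDerivAt_id' t).const_mul b).neg
      rw [mul_one] at this
      exact this
    have h2 : HasDerivAt (fun t : ℝ => -((t - K) + 1 / b)) (-1) t :=
      (((hasDerivAt_id' t).sub_const (K : ℝ)).add_const (1 / b)).neg
    have h3 := h2.mul h1.exp
    have h4 : (t - K) * (b * Real.exp (-(b * t))) = -1 * Real.exp (-(b * t)) +
        -((t - K) + 1 / b) * (Real.exp (-(b * t)) * -b) := by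
      field_simp
      ring
    rw [h4]
    exact h3
  have ht : Tendsto (fun t : ℝ => -((t - K) + 1 / b) * Real.exp (-(b * t))) atTop (𝓝 0) := by
    have e1 : Tendsto (fun t : ℝ => t * Real.exp (-(b * t))) atTop (𝓝 0) := by
      have h1 := Real.tendsto_pow_mul_exp_neg_atTop_nhds_zero 1
      have h2 : Tendsto (fun t : ℝ => b * t) atTop atTop := tendsto_id.const_mul_atTop hb
      have h3 := (h1.comp h2).const_mul (1 / b)
      rw [mul_zero] at h3
      refine h3.congr fun t => ?_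
      simp only [Function.comp, pow_one]
      field_simp
    have e2 : Tendsto (fun t : ℝ => Real.exp (-(b * t))) atTop (𝓝 0) := by
      apply Real.tendsto_exp_atBot.comp
      apply tendsto_neg_atTop_atBot.comp
      exact tendsto_id.const_mul_atTop hb
    have e3 := (e1.neg).add (e2.const_mul ((K : ℝ) - 1 / b))
    rw [neg_zero, mul_zero, add_zero] at e3
    refine e3.congr fun t => ?_
    ring
  have hnn : ∀ t ∈ Ioi (K : ℝ), 0 ≤ (t - K) * (b * Real.exp (-(b * t))) := by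
    intro t ht
    have : (K : ℝ) < t := ht
    have h2 : 0 ≤ t - K := by linarith
    positivity
  have hint := integrableOn_Ioi_deriv_of_nonneg' (fun t _ => hd t) hnn ht
  refine ⟨?_, hint⟩
  rw [integral_Ioi_of_hasDerivAt_of_tendsto' (fun t _ => hd t) hint ht]
  ring

lemma gg_le {b : ℝ} (hb : 0 < b) (t : ℝ) : gg b t ≤ b * Real.exp (-(b * t)) := by
  unfold gg
  apply div_le_self (by positivity)
  linarith [Real.exp_pos (-(b * t))]

lemma le_log_FF (K : ℕ) {b : ℝ} (hb : 0 < b) :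
    Real.pi ^ 2 / 12 / b - Real.log 2 - Real.exp (-(b * K)) / b ≤ Real.log (FF K b) := by
  rw [log_FF]
  have h1 : ∀ p ∈ Finset.Icc 1 K, Real.log (1 + Real.exp (-(b * (p : ℝ)))) =
      ∫ t in Ioi 0, (Ioi (p : ℝ)).indicator (gg b) t := by
    intro p _
    rw [← gg_integral hb, integral_indicator measurableSet_Ioi, Measure.restrict_restrict
      measurableSet_Ioi, inter_eq_left.2 (Ioi_subset_Ioi (Nat.cast_nonneg p))]
  rw [Finset.sum_congr rfl h1, ← integral_finsetSum]
  swap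
  · intro p _
    exact (gg_integrable hb 0).indicator measurableSet_Ioi
  obtain ⟨ht1, ht2⟩ := tail_le hb K
  have h5 : (∫ t in Ioi 0, (Ioi (K : ℝ)).indicator
      (fun t : ℝ => (t - K) * (b * Real.exp (-(b * t)))) t) = Real.exp (-(b * K)) / b := by
    rw [integral_indicator measurableSet_Ioi, Measure.restrict_restrict
      measurableSet_Ioi, inter_eq_left.2 (Ioi_subset_Ioi (Nat.cast_nonneg K)), ht1]
  have hI : Integrable ((Ioi (K : ℝ)).indicator
      (fun t : ℝ => (t - K) * (b * Real.exp (-(b * t))))) (volume.restrict (Ioi 0)) := by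
    have : Integrable ((Ioi (K : ℝ)).indicator
      (fun t : ℝ => (t - K) * (b * Real.exp (-(b * t))))) volume :=
      (integrable_indicator_iff measurableSet_Ioi).2 ht2
    exact this.restrict
  have h2 : Real.pi ^ 2 / 12 / b - Real.log 2 - Real.exp (-(b * K)) / b =
      ∫ t in Ioi 0, (((t * gg b t) - gg b t) - (Ioi (K : ℝ)).indicator
        (fun t : ℝ => (t - K) * (b * Real.exp (-(b * t)))) t) := by
    have hA : Integrable (fun t => t * gg b t - gg b t) (volume.restrict (Ioi 0)) :=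
      (tgg hb).1.sub (gg_integrable hb 0)
    rw [integral_sub hA hI,
      integral_sub (tgg hb).1 (gg_integrable hb 0), (tgg hb).2, gg_integral hb, h5]
    have : (1 : ℝ) + Real.exp (-(b * 0)) = 2 := by norm_num
    rw [this]
  rw [h2]
  refine setIntegral_mono_on ?_ ?_ measurableSet_Ioi ?_
  · exact ((tgg hb).1.sub (gg_integrable hb 0)).sub hI
  · refine integrable_finsetSum _ fun p _ => ?_
    exact (gg_integrable hb 0).indicator measurableSet_Ioi
  · intro t ht
    have ht' : (0 : ℝ) < t := ht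
    have hg := gg_nonneg hb t
    have h3 : ∑ p ∈ Finset.Icc 1 K, (Ioi (p : ℝ)).indicator (gg b) t =
        (((Finset.Icc 1 K).filter fun p : ℕ => (p : ℝ) < t).card : ℝ) * gg b t := by
      rw [Finset.card_filter]
      push_cast
      rw [Finset.sum_mul]
      refine Finset.sum_congr rfl fun p _ => ?_
      by_cases h : (p : ℝ) < t
      · rw [indicator_of_mem (show t ∈ Ioi (p : ℝ) from h), if_pos h, one_mul]
      · rw [indicator_of_notMem (show t ∉ Ioi (p : ℝ) from h), if_neg h, zero_mul]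
    rw [h3]
    by_cases hK : (K : ℝ) < t
    · rw [indicator_of_mem (show t ∈ Ioi (K : ℝ) from hK)]
      have h4 : (Finset.Icc 1 K).filter (fun p : ℕ => (p : ℝ) < t) = Finset.Icc 1 K := by
        apply Finset.filter_true_of_mem
        intro p hp
        rw [Finset.mem_Icc] at hp
        have : (p : ℝ) ≤ K := by exact_mod_cast hp.2
        linarith
      rw [h4, Nat.card_Icc, Nat.add_sub_cancel]
      have h6 := mul_le_mul_of_nonneg_left (gg_le hb t) (show 0 ≤ t - K by linarith)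
      nlinarith
    · rw [indicator_of_notMem (show t ∉ Ioi (K : ℝ) from hK), sub_zero]
      have h4 : Finset.Icc 1 (⌈t⌉₊ - 1) ⊆ (Finset.Icc 1 K).filter (fun p : ℕ => (p : ℝ) < t) := by
        intro p hp
        rw [Finset.mem_Icc] at hp
        have h7 : p < ⌈t⌉₊ := by omega
        have h8 : (p : ℝ) < t := Nat.lt_ceil.1 h7
        rw [Finset.mem_filter, Finset.mem_Icc]
        refine ⟨⟨hp.1, ?_⟩, h8⟩
        have : (p : ℝ) < K := h8.trans_le (not_lt.1 hK)
        exact_mod_cast this.le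
      have h5 := Finset.card_le_card h4
      rw [Nat.card_Icc, Nat.add_sub_cancel] at h5
      have h6 : 1 ≤ ⌈t⌉₊ := Nat.one_le_iff_ne_zero.2 (by
        have := Nat.ceil_pos.2 ht'
        omega)
      have h7 : ((⌈t⌉₊ - 1 : ℕ) : ℝ) ≤
          (((Finset.Icc 1 K).filter fun p : ℕ => (p : ℝ) < t).card : ℝ) := by exact_mod_cast h5
      rw [Nat.cast_sub h6] at h7
      have h8 := Nat.le_ceil t
      have h9 : t - 1 ≤ (((Finset.Icc 1 K).filter fun p : ℕ => (p : ℝ) < t).card : ℝ) := by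
        push_cast at h7
        linarith
      have h10 := mul_le_mul_of_nonneg_right h9 hg
      linarith

/-- the sum over a family of sets of integers with a lower bound for the sums -/
lemma sum_le_shift (K : ℕ) (A : Finset (Finset ℕ)) (hA : A ⊆ (Finset.Icc 1 K).powerset)
    {b b' m : ℝ} (h : ∀ S ∈ A, (b' - b) * ((∑ k ∈ S, k : ℕ) : ℝ) ≤ (b' - b) * m) :
    ∑ S ∈ A, Real.exp (-(b * ((∑ k ∈ S, k : ℕ) : ℝ))) ≤
      Real.exp ((b' - b) * m) * FF K b' := by
  calc ∑ S ∈ A, Real.exp (-(b * ((∑ k ∈ S, k : ℕ) : ℝ)))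
      ≤ ∑ S ∈ A, Real.exp ((b' - b) * m) * Real.exp (-(b' * ((∑ k ∈ S, k : ℕ) : ℝ))) := by
        refine Finset.sum_le_sum fun S hS => ?_
        rw [← Real.exp_add, Real.exp_le_exp]
        have := h S hS
        linarith
    _ = Real.exp ((b' - b) * m) * ∑ S ∈ A, Real.exp (-(b' * ((∑ k ∈ S, k : ℕ) : ℝ))) := by
        rw [Finset.mul_sum]
    _ ≤ _ := by
        apply mul_le_mul_of_nonneg_left _ (Real.exp_pos _).le
        exact Finset.sum_le_sum_of_subset_of_nonneg hA fun _ _ _ => (Real.exp_pos _).le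

/-- the core estimate: `x = b n0`, `x b = π²/12` -/
lemma core {δ : ℝ} (h0 : 0 < δ) (h1 : δ ≤ 1 / 2) (K : ℕ) {b n0 x : ℝ} (hb : 0 < b)
    (hx : x = b * n0) (hxb : Real.pi ^ 2 / 12 / b = x)
    (hK : Real.exp (-(b * K)) / b ≤ x * (δ ^ 2 / 32))
    (hx1 : Real.log 8 ≤ x * (δ ^ 2 / 8 - δ ^ 2 / 32)) (hx2 : Real.log 4 ≤ x * (δ - δ ^ 2 / 32)) :
    Real.exp (2 * (1 - δ) * x) ≤ ((((Finset.Icc 1 K).powerset.filter fun S =>
      ((∑ k ∈ S, k : ℕ) : ℝ) ≤ n0 * (1 + δ)).card : ℕ) : ℝ) := by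
  have hx0 : 0 < x := by rw [← hxb]; positivity
  set T := (Finset.Icc 1 K).powerset with hT
  set e : Finset ℕ → ℝ := fun S => Real.exp (-(b * ((∑ k ∈ S, k : ℕ) : ℝ))) with he
  -- three families
  set N := T.filter fun S => ((∑ k ∈ S, k : ℕ) : ℝ) ≤ n0 * (1 + δ) with hN
  set A1 := N.filter fun S => ((∑ k ∈ S, k : ℕ) : ℝ) ≤ n0 * (1 - δ) with hA1
  set A2 := N.filter fun S => ¬ ((∑ k ∈ S, k : ℕ) : ℝ) ≤ n0 * (1 - δ) with hA2
  set A3 := T.filter fun S => ¬ ((∑ k ∈ S, k : ℕ) : ℝ) ≤ n0 * (1 + δ) with hA3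
  have hF : FF K b = ∑ S ∈ A1, e S + ∑ S ∈ A2, e S + ∑ S ∈ A3, e S := by
    rw [hA1, hA2, Finset.sum_filter_add_sum_filter_not, hA3, hN,
      Finset.sum_filter_add_sum_filter_not]
    rfl
  have s1 : ∑ S ∈ A1, e S ≤ Real.exp (x * (1 - δ ^ 2 / 8)) := by
    have hb' : 0 < b * (1 + δ / 2) := by positivity
    have h := sum_le_shift K A1 ((Finset.filter_subset _ _).trans (Finset.filter_subset _ _))
      (b := b) (b' := b * (1 + δ / 2)) (m := n0 * (1 - δ)) (by
        intro S hS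
        apply mul_le_mul_of_nonneg_left _ (by nlinarith)
        exact (Finset.mem_filter.1 hS).2)
    refine h.trans ?_
    refine (mul_le_mul_of_nonneg_left (FF_le K hb') (Real.exp_pos _).le).trans ?_
    rw [← Real.exp_add, Real.exp_le_exp]
    have e1 : Real.pi ^ 2 / 12 / (b * (1 + δ / 2)) = x / (1 + δ / 2) := by
      rw [← hxb]
      field_simp
    rw [e1]
    have e2 : x / (1 + δ / 2) ≤ x * (1 - δ / 2 + δ ^ 2 / 4) := by
      rw [div_le_iff₀ (by positivity), mul_assoc]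
      apply le_mul_of_one_le_right hx0.le
      nlinarith [pow_pos h0 3]
    have e3 : (b * (1 + δ / 2) - b) * (n0 * (1 - δ)) = x * (δ / 2 * (1 - δ)) := by
      rw [hx]; ring
    rw [e3]
    nlinarith [mul_pos hx0 (pow_pos h0 2)]
  have s3 : ∑ S ∈ A3, e S ≤ Real.exp (x * (1 - δ ^ 2 / 8)) := by
    have hb' : 0 < b * (1 - δ / 4) := mul_pos hb (by linarith)
    have h := sum_le_shift K A3 (Finset.filter_subset _ _)
      (b := b) (b' := b * (1 - δ / 4)) (m := n0 * (1 + δ)) (by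
        intro S hS
        apply mul_le_mul_of_nonpos_left _ (by nlinarith)
        exact (not_le.1 (Finset.mem_filter.1 hS).2).le)
    refine h.trans ?_
    refine (mul_le_mul_of_nonneg_left (FF_le K hb') (Real.exp_pos _).le).trans ?_
    rw [← Real.exp_add, Real.exp_le_exp]
    have h4 : 0 < 1 - δ / 4 := by linarith
    have e1 : Real.pi ^ 2 / 12 / (b * (1 - δ / 4)) = x / (1 - δ / 4) := by
      rw [← hxb]
      field_simp
    rw [e1]
    have e2 : x / (1 - δ / 4) ≤ x * (1 + δ / 4 + δ ^ 2 / 8) := by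
      rw [div_le_iff₀ h4, mul_assoc]
      apply le_mul_of_one_le_right hx0.le
      nlinarith [pow_pos h0 2, mul_nonneg (pow_pos h0 2).le (show 0 ≤ 1 / 2 - δ by linarith)]
    have e3 : (b * (1 - δ / 4) - b) * (n0 * (1 + δ)) = -(x * (δ / 4 * (1 + δ))) := by
      rw [hx]; ring
    rw [e3]
    nlinarith [mul_pos hx0 (pow_pos h0 2)]
  have s2 : ∑ S ∈ A2, e S ≤ (N.card : ℝ) * Real.exp (-(x * (1 - δ))) := by
    have h : ∑ S ∈ A2, e S ≤ ∑ S ∈ A2, Real.exp (-(x * (1 - δ))) := by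
      refine Finset.sum_le_sum fun S hS => ?_
      rw [he]
      simp only
      rw [Real.exp_le_exp, neg_le_neg_iff]
      have h2 := (not_le.1 (Finset.mem_filter.1 hS).2).le
      have h3 := mul_le_mul_of_nonneg_left h2 hb.le
      rw [hx]
      linarith
    refine h.trans ?_
    rw [Finset.sum_const, nsmul_eq_mul]
    apply mul_le_mul_of_nonneg_right _ (Real.exp_pos _).le
    exact_mod_cast Finset.card_le_card (Finset.filter_subset _ _)
  have s0 : Real.exp (x * (1 - δ ^ 2 / 32)) / 2 ≤ FF K b := by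
    have h := le_log_FF K hb
    rw [hxb] at h
    rw [Real.le_log_iff_exp_le (FF_pos K b)] at h
    refine le_trans ?_ h
    have : Real.exp (x * (1 - δ ^ 2 / 32)) / 2 = Real.exp (x * (1 - δ ^ 2 / 32) - Real.log 2) := by
      rw [Real.exp_sub, Real.exp_log (by norm_num)]
    rw [this, Real.exp_le_exp]
    linarith
  have s4 : Real.exp (x * (1 - δ ^ 2 / 8)) ≤ Real.exp (x * (1 - δ ^ 2 / 32)) / 8 := by
    have : Real.exp (x * (1 - δ ^ 2 / 32)) / 8 = Real.exp (x * (1 - δ ^ 2 / 32) - Real.log 8) := by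
      rw [Real.exp_sub, Real.exp_log (by norm_num)]
    rw [this, Real.exp_le_exp]
    linarith
  have s5 : Real.exp (x * (1 - δ)) ≤ Real.exp (x * (1 - δ ^ 2 / 32)) / 4 := by
    have : Real.exp (x * (1 - δ ^ 2 / 32)) / 4 = Real.exp (x * (1 - δ ^ 2 / 32) - Real.log 4) := by
      rw [Real.exp_sub, Real.exp_log (by norm_num)]
    rw [this, Real.exp_le_exp]
    linarith
  have s6 : Real.exp (x * (1 - δ)) ≤ (N.card : ℝ) * Real.exp (-(x * (1 - δ))) := by linarith
  have s7 : Real.exp (2 * (1 - δ) * x) = Real.exp (x * (1 - δ)) * Real.exp (x * (1 - δ)) := by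
    rw [← Real.exp_add]
    congr 1
    ring
  rw [s7]
  calc Real.exp (x * (1 - δ)) * Real.exp (x * (1 - δ))
      ≤ ((N.card : ℝ) * Real.exp (-(x * (1 - δ)))) * Real.exp (x * (1 - δ)) :=
        mul_le_mul_of_nonneg_right s6 (Real.exp_pos _).le
    _ = (N.card : ℝ) := by
        rw [mul_assoc, ← Real.exp_add]
        simp

theorem many_distinct (ε : ℝ) (hε : 0 < ε) : ∃ C N0 : ℝ, 0 < C ∧ 0 < N0 ∧ ∀ n : ℝ, N0 ≤ n →
    Real.exp ((1 - ε) * (Real.pi * Real.sqrt (n / 3))) ≤
      (((Finset.Icc 1 ⌊C * Real.sqrt n⌋₊).powerset.filter fun S =>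
        ((∑ k ∈ S, k : ℕ) : ℝ) ≤ n).card : ℝ) := by
  set δ : ℝ := min ε 1 / 2 with hδ
  have h0 : 0 < δ := by rw [hδ]; positivity
  have h1 : δ ≤ 1 / 2 := by
    rw [hδ]
    linarith [min_le_right ε 1]
  have h2 : 2 * δ ≤ ε := by
    rw [hδ]
    linarith [min_le_left ε 1]
  -- threshold for x
  set L : ℝ := Real.pi ^ 2 / 12 with hL
  have hLpos : 0 < L := by positivity
  have c1 : 0 < δ ^ 2 / 8 - δ ^ 2 / 32 := by nlinarith [pow_pos h0 2]
  have c2 : 0 < δ - δ ^ 2 / 32 := by nlinarith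
  set X : ℝ := max (Real.log 8 / (δ ^ 2 / 8 - δ ^ 2 / 32)) (Real.log 4 / (δ - δ ^ 2 / 32)) with hX
  -- the constant for K
  obtain ⟨C', hC'pos, hC'⟩ : ∃ C' : ℝ, 0 < C' ∧ Real.exp (-C') ≤ L * (δ ^ 2 / 32) := by
    have hp : 0 < L * (δ ^ 2 / 32) := by positivity
    refine ⟨max 1 (-Real.log (L * (δ ^ 2 / 32))), by positivity, ?_⟩
    rw [← Real.le_log_iff_exp_le hp]
    linarith [le_max_right (1 : ℝ) (-Real.log (L * (δ ^ 2 / 32)))]
  -- sqrt L
  set q : ℝ := Real.sqrt L with hq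
  have hqpos : 0 < q := Real.sqrt_pos.2 hLpos
  have hqq : q * q = L := Real.mul_self_sqrt hLpos.le
  refine ⟨(C' + 1) / q + 1, max 2 ((2 * max X 1 / q) ^ 2 + 4 * q ^ 2), by positivity, by positivity, ?_⟩
  intro n hn
  have hn2 : 2 ≤ n := (le_max_left _ _).trans hn
  have hnpos : 0 < n := by linarith
  have hn3 : (2 * max X 1 / q) ^ 2 + 4 * q ^ 2 ≤ n := (le_max_right _ _).trans hn
  set n0 : ℝ := n / (1 + δ) with hn0
  have hδ1 : 0 < 1 + δ := by linarith
  have hn0pos : 0 < n0 := by positivity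
  have hn0n : n0 * (1 + δ) = n := by rw [hn0]; field_simp
  have hn0le : n / 2 ≤ n0 := by
    rw [hn0, le_div_iff₀ hδ1]
    nlinarith
  set r : ℝ := Real.sqrt n0 with hr
  have hrpos : 0 < r := Real.sqrt_pos.2 hn0pos
  have hrr : r * r = n0 := Real.mul_self_sqrt hn0pos.le
  set b : ℝ := q / r with hb
  have hbpos : 0 < b := by positivity
  set x : ℝ := q * r with hx
  have hxb : b * n0 = x := by
    rw [hb, hx, ← hrr]
    field_simp
  have hxb' : L / b = x := by
    rw [hb, hx, ← hqq]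
    field_simp
  -- r is large
  have hr1 : max X 1 / q ≤ r := by
    apply Real.le_sqrt_of_sq_le
    have hh : (2 * max X 1 / q) ^ 2 ≤ n := by nlinarith [sq_nonneg q]
    have : (max X 1 / q) ^ 2 = (2 * max X 1 / q) ^ 2 / 4 := by ring
    rw [this]
    linarith
  have hxX : max X 1 ≤ x := by
    rw [hx, mul_comm]
    rwa [div_le_iff₀ hqpos] at hr1
  have hx1 : Real.log 8 ≤ x * (δ ^ 2 / 8 - δ ^ 2 / 32) := by
    rw [← div_le_iff₀ c1]
    exact ((le_max_left _ _).trans (le_max_left _ _)).trans hxX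
  have hx2 : Real.log 4 ≤ x * (δ - δ ^ 2 / 32) := by
    rw [← div_le_iff₀ c2]
    exact ((le_max_right _ _).trans (le_max_left _ _)).trans hxX
  -- K
  set K : ℕ := ⌊((C' + 1) / q + 1) * Real.sqrt n⌋₊ with hKdef
  have hrn : r ≤ Real.sqrt n := by
    apply Real.sqrt_le_sqrt
    rw [← hn0n]
    nlinarith
  have hsn1 : 1 ≤ Real.sqrt n := by
    rw [Real.one_le_sqrt]
    linarith
  have hKge : C' / q * r ≤ K := by
    have h5 := (Nat.lt_floor_add_one (((C' + 1) / q + 1) * Real.sqrt n)).le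
    rw [← hKdef] at h5
    have h6 : ((C' + 1) / q) * r ≤ ((C' + 1) / q) * Real.sqrt n :=
      mul_le_mul_of_nonneg_left hrn (by positivity)
    have h7 : C' / q * r ≤ ((C' + 1) / q) * r := by
      apply mul_le_mul_of_nonneg_right _ hrpos.le
      gcongr
      linarith
    nlinarith
  have hbK : C' ≤ b * K := by
    have : C' = b * (C' / q * r) := by
      rw [hb]
      field_simp
    rw [this]
    exact mul_le_mul_of_nonneg_left hKge hbpos.le
  have hK : Real.exp (-(b * K)) / b ≤ x * (δ ^ 2 / 32) := by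
    have hh : L / b * (δ ^ 2 / 32) = (L * (δ ^ 2 / 32)) / b := by ring
    rw [← hxb', hh]
    apply div_le_div_of_nonneg_right _ hbpos.le
    refine le_trans ?_ hC'
    rw [Real.exp_le_exp]
    linarith
  have hmain := core h0 h1 K hbpos hxb.symm hxb' hK hx1 hx2
  rw [hn0n] at hmain
  refine le_trans ?_ hmain
  rw [Real.exp_le_exp]
  -- compare exponents
  have e1 : Real.pi * Real.sqrt (n / 3) = 2 * q * Real.sqrt n := by
    have h5 : q = Real.pi / Real.sqrt 12 := by
      rw [hq, hL, Real.sqrt_div (by positivity), Real.sqrt_sq Real.pi_pos.le]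
    have h6 : Real.sqrt 12 = 2 * Real.sqrt 3 := by
      rw [show (12 : ℝ) = 2 ^ 2 * 3 by norm_num, Real.sqrt_mul (by positivity),
        Real.sqrt_sq (by norm_num)]
    rw [h5, h6, Real.sqrt_div hnpos.le]
    have : Real.sqrt 3 ≠ 0 := by positivity
    field_simp
  rw [e1, hx]
  have e2 : (1 - δ) * Real.sqrt n ≤ r := by
    apply Real.le_sqrt_of_sq_le
    rw [mul_pow, Real.sq_sqrt hnpos.le, hn0, le_div_iff₀ hδ1]
    have : (1 - δ) ^ 2 * (1 + δ) ≤ 1 := by nlinarith [pow_pos h0 2, pow_pos h0 3]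
    nlinarith
  have e3 : (1 - ε) * Real.sqrt n ≤ (1 - δ) * r := by
    have h5 : (1 - δ) * ((1 - δ) * Real.sqrt n) ≤ (1 - δ) * r :=
      mul_le_mul_of_nonneg_left e2 (by linarith)
    have h6 : (1 - ε) * Real.sqrt n ≤ (1 - δ) * ((1 - δ) * Real.sqrt n) := by
      rw [← mul_assoc]
      apply mul_le_mul_of_nonneg_right _ (by linarith)
      nlinarith [sq_nonneg δ]
    linarith
  nlinarith

end Pool.Agent.Q19.NA
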